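import Mathlib

/-!
The unique subset exchange relation on the base sequences of a matroid is not symmetric.
-/

set_option autoImplicit false

namespace Pool.Agent.Results.MP_2d361f_co.NotSymm

/-- The set `E(X; A, B)` of those `Y ⊆ B` such that `(A \ X) ∪ Y` and `(B \ Y) ∪ X` are both bases
of `M`. -/
def Exch {α : Type} (M : Matroid α) (X A B : Set α) : Set (Set α) :=
  {Y | Y ⊆ B ∧ M.IsBase ((A \ X) ∪ Y) ∧ M.IsBase ((B \ Y) ∪ X)}

/-- `𝓑'` arises from `𝓑` by a unique subset exchange. -/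
def Step {α : Type} (M : Matroid α) {m : ℕ} (𝓑 𝓑' : Fin m → Set α) : Prop :=
  ∃ i j : Fin m, i < j ∧ ∃ X ⊆ 𝓑 i, ∃ Y, Exch M X (𝓑 i) (𝓑 j) = {Y} ∧
    𝓑' = Function.update (Function.update 𝓑 i ((𝓑 i \ X) ∪ Y)) j ((𝓑 j \ Y) ∪ X)

/-- `𝓑'` can be reached from `𝓑` by a finite chain of unique subset exchanges. -/
def Reach {α : Type} (M : Matroid α) {m : ℕ} (𝓑 𝓑' : Fin m → Set α) : Prop :=
  Relation.ReflTransGen (Step M) 𝓑 𝓑'

/-- The codes of the bases of a matroid of rank four on `Fin 8`: `∑_{i ∈ B} 2^i`. It is the matroid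
of the columns `1000 0100 0010 0001 0114 1100 1031 2110` over `F_5`. -/
def codes : List ℕ := [15, 23, 27, 29, 45, 46, 53, 54, 57, 58, 60, 71, 75, 78, 83, 85, 86, 89, 90,
  92, 101, 102, 105, 106, 108, 113, 114, 120, 139, 141, 142, 147, 149, 150, 154, 156, 169, 170,
  172, 177, 178, 180, 184, 195, 197, 198, 201, 204, 209, 210, 212, 216, 225, 226, 228, 232, 240]

/-- The set with a given code. -/
def st (m : ℕ) : Set (Fin 8) := {i | m.testBit i = true}

lemma mem_st {m : ℕ} {i : Fin 8} : i ∈ st m ↔ m.testBit i = true := Iff.rfl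

lemma st_or (a b : ℕ) : st (a ||| b) = st a ∪ st b := by
  ext i
  simp only [mem_st, Set.mem_union, Nat.testBit_or, Bool.or_eq_true]

lemma st_sdiff (a b : ℕ) (h : st b ⊆ st a) : st (a ^^^ b) = st a \ st b := by
  ext i
  have := @h i
  simp only [mem_st, Set.mem_sdiff, Nat.testBit_xor] at this ⊢
  cases h1 : a.testBit i <;> cases h2 : b.testBit i <;> simp_all

lemma st_inj {a b : ℕ} (ha : a < 256) (hb : b < 256) (h : st a = st b) : a = b := by
  apply Nat.eq_of_testBit_eq
  intro i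
  rcases Nat.lt_or_ge i 8 with hi | hi
  · have : (⟨i, hi⟩ : Fin 8) ∈ st a ↔ (⟨i, hi⟩ : Fin 8) ∈ st b := by rw [h]
    rw [mem_st, mem_st] at this
    exact Bool.eq_iff_iff.2 this
  · rw [Nat.testBit_lt_two_pow (lt_of_lt_of_le ha (le_trans (by norm_num)
      (Nat.pow_le_pow_right (by norm_num : 0 < 2) hi))),
      Nat.testBit_lt_two_pow (lt_of_lt_of_le hb (le_trans (by norm_num)
      (Nat.pow_le_pow_right (by norm_num : 0 < 2) hi)))]

lemma exists_code (X : Set (Fin 8)) : ∃ m < 256, st m = X := by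
  classical
  have hc : Function.Injective (fun m : Fin 256 => st m) := by
    intro a b h
    exact Fin.ext (st_inj a.2 b.2 h)
  have hb : Function.Bijective (fun m : Fin 256 => st m) := by
    rw [Fintype.bijective_iff_injective_and_card]
    refine ⟨hc, ?_⟩
    rw [Fintype.card_fin, Fintype.card_set, Fintype.card_fin]
    norm_num
  obtain ⟨m, hm⟩ := hb.2 X
  exact ⟨m, m.2, hm⟩

lemma codes_lt : ∀ m ∈ codes, m < 256 := by decide

lemma exch_codes : ∀ m₁ ∈ codes, ∀ m₂ ∈ codes, ∀ a : Fin 8, m₁.testBit a = true →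
    m₂.testBit a = false → ∃ b : Fin 8, m₂.testBit b = true ∧ m₁.testBit b = false ∧
      ((m₁ ^^^ 2 ^ (a : ℕ)) ||| 2 ^ (b : ℕ)) ∈ codes := by
  decide +kernel

lemma st_two_pow (a : Fin 8) : st (2 ^ (a : ℕ)) = {a} := by
  ext i
  rw [mem_st, Nat.testBit_two_pow, decide_eq_true_eq, Set.mem_singleton_iff, Fin.ext_iff, eq_comm]

/-- The matroid. -/
def M : Matroid (Fin 8) :=
  Matroid.ofIsBaseOfFinite (E := Set.univ) Set.finite_univ (fun X => ∃ m ∈ codes, X = st m)
    ⟨st 15, 15, by decide, rfl⟩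
    (by
      rintro _ _ ⟨m₁, h₁, rfl⟩ ⟨m₂, h₂, rfl⟩ a ⟨ha₁, ha₂⟩
      rw [mem_st] at ha₁ ha₂
      obtain ⟨b, hb₂, hb₁, hb⟩ := exch_codes m₁ h₁ m₂ h₂ a ha₁ (by simpa using ha₂)
      refine ⟨b, ⟨hb₂, ?_⟩, _, hb, ?_⟩
      · rw [mem_st, hb₁]
        simp
      · rw [st_or, st_sdiff, st_two_pow, st_two_pow, Set.union_singleton]
        rw [st_two_pow]
        intro i hi
        rw [Set.mem_singleton_iff] at hi
        rw [hi]
        exact ha₁)
    (fun _ _ => Set.subset_univ _)

lemma isBase_iff (X : Set (Fin 8)) : M.IsBase X ↔ ∃ m ∈ codes, X = st m := by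
  rw [M, Matroid.ofIsBaseOfFinite_isBase]

lemma isBase_st {m : ℕ} (hm : m < 256) : M.IsBase (st m) ↔ m ∈ codes := by
  rw [isBase_iff]
  constructor
  · rintro ⟨m', hm', h⟩
    rwa [st_inj hm (codes_lt _ hm') h]
  · intro h
    exact ⟨m, h, rfl⟩

/-- Computable version of membership in `Exch`. -/
def ok (x a b y : ℕ) : Bool :=
  (y ||| b == b) && codes.contains ((a ^^^ x) ||| y) && codes.contains ((b ^^^ y) ||| x)

lemma st_subset_iff {a b : ℕ} (ha : a < 256) (hb : b < 256) : st a ⊆ st b ↔ a ||| b = b := by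
  rw [← Set.union_eq_right, ← st_or]
  constructor
  · intro h
    exact st_inj (Nat.or_lt_two_pow (n := 8) ha hb) hb h
  · intro h
    rw [h]

lemma mem_exch {x a b y : ℕ} (hx : x < 256) (ha : a < 256) (hb : b < 256) (hy : y < 256)
    (hxa : st x ⊆ st a) : st y ∈ Exch M (st x) (st a) (st b) ↔ ok x a b y = true := by
  rw [Exch, Set.mem_ofPred_eq, ok, Bool.and_eq_true, Bool.and_eq_true, st_subset_iff hy hb,
    beq_iff_eq, List.contains_iff_mem, List.contains_iff_mem, and_assoc]
  apply and_congr_right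
  intro hyb
  have hyb' : st y ⊆ st b := (st_subset_iff hy hb).2 hyb
  rw [← st_sdiff a x hxa, ← st_sdiff b y hyb', ← st_or, ← st_or,
    isBase_st (Nat.or_lt_two_pow (n := 8) (Nat.xor_lt_two_pow (n := 8) ha hx) hy),
    isBase_st (Nat.or_lt_two_pow (n := 8) (Nat.xor_lt_two_pow (n := 8) hb hy) hx)]

lemma two_left : ∀ x ∈ List.range 256, x ||| 15 = 15 → x ≠ 0 → x ≠ 15 →
    1 < ((List.range 256).filter (fun y => ok x 15 240 y)).length := by
  decide +kernel

lemma two_right : ∀ x ∈ List.range 256, x ||| 240 = 240 → x ≠ 0 → x ≠ 240 →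
    1 < ((List.range 256).filter (fun y => ok x 240 15 y)).length := by
  decide +kernel

lemma not_singleton {x a b : ℕ} (hx : x < 256) (ha : a < 256) (hb : b < 256)
    (hxa : st x ⊆ st a)
    (h : 1 < ((List.range 256).filter (fun y => ok x a b y)).length) (Y : Set (Fin 8)) :
    Exch M (st x) (st a) (st b) ≠ {Y} := by
  intro hY
  have hnd : ((List.range 256).filter (fun y => ok x a b y)).Nodup :=
    List.Nodup.filter _ List.nodup_range
  obtain ⟨y₁, h₁, y₂, h₂, hne⟩ : ∃ y₁ ∈ (List.range 256).filter (fun y => ok x a b y),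
      ∃ y₂ ∈ (List.range 256).filter (fun y => ok x a b y), y₁ ≠ y₂ := by
    refine ⟨_, List.getElem_mem (Nat.lt_trans Nat.zero_lt_one h), _, List.getElem_mem h, ?_⟩
    intro heq
    have := (List.Nodup.getElem_inj_iff hnd).1 heq
    omega
  rw [List.mem_filter, List.mem_range] at h₁ h₂
  have e₁ := (mem_exch hx ha hb h₁.1 hxa).2 h₁.2
  have e₂ := (mem_exch hx ha hb h₂.1 hxa).2 h₂.2
  rw [hY, Set.mem_singleton_iff] at e₁ e₂
  exact hne (st_inj h₁.1 h₂.1 (e₁.trans e₂.symm))

lemma exch_empty {A B Y : Set (Fin 8)} (hA : M.IsBase A) (hB : M.IsBase B)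
    (h : Exch M ∅ A B = {Y}) : Y = ∅ := by
  have : (∅ : Set (Fin 8)) ∈ Exch M ∅ A B := by
    refine ⟨Set.empty_subset _, ?_, ?_⟩
    · rwa [Set.sdiff_empty, Set.union_empty]
    · rwa [Set.sdiff_empty, Set.union_empty]
  rw [h, Set.mem_singleton_iff] at this
  exact this.symm

lemma exch_full {A B Y : Set (Fin 8)} (hA : M.IsBase A) (hB : M.IsBase B)
    (h : Exch M A A B = {Y}) : Y = B := by
  have : B ∈ Exch M A A B := by
    refine ⟨subset_rfl, ?_, ?_⟩
    · rwa [Set.sdiff_self, Set.empty_union]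
    · rwa [Set.sdiff_self, Set.empty_union]
  rw [h, Set.mem_singleton_iff] at this
  exact this.symm

/-- The two sequences from which nothing else can be reached. -/
def Closed (𝓑 : Fin 2 → Set (Fin 8)) : Prop :=
  (𝓑 0 = st 15 ∧ 𝓑 1 = st 240) ∨ (𝓑 0 = st 240 ∧ 𝓑 1 = st 15)

lemma base15 : M.IsBase (st 15) := (isBase_st (by norm_num)).2 (by decide)

lemma base240 : M.IsBase (st 240) := (isBase_st (by norm_num)).2 (by decide)

lemma trivial_exch {a b : ℕ} (ha : a < 256) (hb : b < 256) (hA : M.IsBase (st a))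
    (hB : M.IsBase (st b))
    (htwo : ∀ x ∈ List.range 256, x ||| a = a → x ≠ 0 → x ≠ a →
      1 < ((List.range 256).filter (fun y => ok x a b y)).length)
    {X Y : Set (Fin 8)} (hX : X ⊆ st a) (hY : Exch M X (st a) (st b) = {Y}) :
    (X = ∅ ∧ Y = ∅) ∨ (X = st a ∧ Y = st b) := by
  obtain ⟨x, hx, rfl⟩ := exists_code X
  by_cases h0 : x = 0
  · left
    subst h0
    have h0 : st 0 = ∅ := by
      ext i
      simp [mem_st]
    rw [h0] at hY ⊢
    exact ⟨rfl, exch_empty hA hB hY⟩
  by_cases h1 : x = a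
  · right
    subst h1
    exact ⟨rfl, exch_full hA hB hY⟩
  exact absurd hY (not_singleton hx ha hb hX
    (htwo x (List.mem_range.2 hx) ((st_subset_iff hx ha).1 hX) h0 h1) Y)

lemma closed_step {𝓑 𝓑' : Fin 2 → Set (Fin 8)} (h : Closed 𝓑) (hs : Step M 𝓑 𝓑') :
    Closed 𝓑' := by
  obtain ⟨i, j, hij, X, hX, Y, hY, rfl⟩ := hs
  have hi : i = 0 := by omega
  have hj : j = 1 := by omega
  subst hi hj
  have hval0 : Function.update (Function.update 𝓑 0 ((𝓑 0 \ X) ∪ Y)) 1 ((𝓑 1 \ Y) ∪ X) 0 =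
      (𝓑 0 \ X) ∪ Y := by
    rw [Function.update_of_ne (by decide), Function.update_self]
  have hval1 : Function.update (Function.update 𝓑 0 ((𝓑 0 \ X) ∪ Y)) 1 ((𝓑 1 \ Y) ∪ X) 1 =
      (𝓑 1 \ Y) ∪ X := by
    rw [Function.update_self]
  unfold Closed
  rw [hval0, hval1]
  rcases h with ⟨h0, h1⟩ | ⟨h0, h1⟩
  · rw [h0] at hX
    rw [h0, h1] at hY
    rw [h0, h1]
    rcases trivial_exch (by norm_num) (by norm_num) base15 base240 two_left hX hY with
      ⟨rfl, rfl⟩ | ⟨rfl, rfl⟩
    · left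
      simp
    · right
      simp
  · rw [h0] at hX
    rw [h0, h1] at hY
    rw [h0, h1]
    rcases trivial_exch (by norm_num) (by norm_num) base240 base15 two_right hX hY with
      ⟨rfl, rfl⟩ | ⟨rfl, rfl⟩
    · right
      simp
    · left
      simp

lemma closed_reach {𝓑 𝓑' : Fin 2 → Set (Fin 8)} (h : Closed 𝓑) (hs : Reach M 𝓑 𝓑') :
    Closed 𝓑' := by
  induction hs with
  | refl => exact h
  | tail _ h2 ih => exact closed_step ih h2

lemma only_one : (List.range 256).filter (fun y => ok 80 83 172 y) = [12] := by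
  decide +kernel

lemma step_start : Step M ![st 83, st 172] ![st 15, st 240] := by
  refine ⟨0, 1, by decide, st 80, ?_, st 12, ?_, ?_⟩
  · exact (st_subset_iff (by norm_num) (by norm_num)).2 (by decide)
  · have hsub : st 80 ⊆ st 83 := (st_subset_iff (by norm_num) (by norm_num)).2 (by decide)
    change Exch M (st 80) (st 83) (st 172) = {st 12}
    ext Y
    obtain ⟨y, hy, rfl⟩ := exists_code Y
    rw [mem_exch (by norm_num) (by norm_num) (by norm_num) hy hsub, Set.mem_singleton_iff]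
    have : ok 80 83 172 y = true ↔ y ∈ (List.range 256).filter (fun y => ok 80 83 172 y) := by
      rw [List.mem_filter, List.mem_range]
      exact ⟨fun h => ⟨hy, h⟩, fun h => h.2⟩
    rw [this, only_one, List.mem_singleton]
    exact ⟨fun h => by rw [h], fun h => st_inj hy (by norm_num) h⟩
  · have h1 : (st 83 \ st 80) ∪ st 12 = st 15 := by
      rw [← st_sdiff 83 80 ((st_subset_iff (by norm_num) (by norm_num)).2 (by decide)), ← st_or]
      rfl
    have h2 : (st 172 \ st 12) ∪ st 80 = st 240 := by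
      rw [← st_sdiff 172 12 ((st_subset_iff (by norm_num) (by norm_num)).2 (by decide)), ← st_or]
      rfl
    funext i
    fin_cases i
    · change st 15 = (st 83 \ st 80) ∪ st 12
      exact h1.symm
    · change st 240 = (st 172 \ st 12) ∪ st 80
      exact h2.symm

/-- The relation of being reachable by unique subset exchanges is not symmetric. -/
theorem result :
    ¬ ∀ (α : Type) (_ : Finite α) (M : Matroid α) (m : ℕ) (𝓑 𝓑' : Fin m → Set α),
      (∀ i, M.IsBase (𝓑 i)) → (∀ i, M.IsBase (𝓑' i)) → Reach M 𝓑 𝓑' → Reach M 𝓑' 𝓑 := by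
  intro hall
  have h := hall (Fin 8) inferInstance M 2 ![st 83, st 172] ![st 15, st 240]
    (by
      intro i
      fin_cases i
      · exact (isBase_st (by norm_num)).2 (by decide)
      · exact (isBase_st (by norm_num)).2 (by decide))
    (by
      intro i
      fin_cases i
      · exact base15
      · exact base240)
    (Relation.ReflTransGen.single step_start)
  have hc := closed_reach (Or.inl ⟨rfl, rfl⟩) h
  rcases hc with ⟨h0, -⟩ | ⟨h0, -⟩
  · have := st_inj (by norm_num) (by norm_num) h0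
    omega
  · have := st_inj (by norm_num) (by norm_num) h0
    omega

end Pool.Agent.Results.MP_2d361f_co.NotSymm
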